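import Pool.Agent.Helper21.DN.Stmts

/-! # Module GRF: the ramification function of a Galois extension is a good one -/

set_option autoImplicit false

namespace Pool.Agent.Helper21.DN

universe u

section

theorem grf_smul_top (n : ℕ) (hn : 0 < n) : n • (⊤ : WithTop ℤ) = ⊤ := by
  obtain ⟨m, rfl⟩ : ∃ m, n = m + 1 := ⟨n - 1, by omega⟩
  rw [succ_nsmul, add_top]

theorem grf_cancel (n : ℕ) (hn : 0 < n) (a b : WithTop ℤ) (h : n • a = n • b) : a = b := by
  induction a using WithTop.recTopCoe with
  | top =>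
    induction b using WithTop.recTopCoe with
    | top => rfl
    | coe b =>
      rw [grf_smul_top n hn, ← WithTop.coe_nsmul] at h
      exact absurd h (WithTop.coe_ne_top).symm
  | coe a =>
    induction b using WithTop.recTopCoe with
    | top =>
      rw [grf_smul_top n hn, ← WithTop.coe_nsmul] at h
      exact absurd h WithTop.coe_ne_top
    | coe b =>
      rw [← WithTop.coe_nsmul, ← WithTop.coe_nsmul, WithTop.coe_inj, nsmul_eq_mul,
        nsmul_eq_mul] at h
      have hn' : (n : ℤ) ≠ 0 := by exact_mod_cast hn.ne'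
      rw [mul_left_cancel₀ hn' h]

/-- the standing hypotheses pass to normal intermediate fields -/
theorem grf_quot {k K L : Type u} [Field k] [Field K] [Field L] [Algebra K L]
    [FiniteDimensional K L] [IsGalois K L] (κ : k →+* K) (v : AddValuation L (WithTop ℤ))
    (hR : Ram κ v) (F : IntermediateField K L) [Normal K F] (vF : AddValuation F (WithTop ℤ))
    (h1 : TV ((algebraMap K F).comp κ) vF)
    (h2 : ∀ x : F, v (x : L) = Module.finrank F L • vF x) : Ram κ vF := by
  have hn : 0 < Module.finrank F L := Module.finrank_pos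
  refine ⟨h1, ?_, ?_⟩
  · intro σ x
    apply grf_cancel _ hn
    rw [← h2, ← h2]
    have h3 := AlgEquiv.liftNormal_commutes σ L x
    have h4 : ((σ x : F) : L) = σ.liftNormal L (x : L) := h3.symm
    rw [h4, hR.inv]
  · intro F'
    obtain ⟨v'', t1, t2⟩ := hR.sub (IntermediateField.lift F')
    set e := IntermediateField.liftAlgEquiv F' with he
    refine ⟨v''.comap (e : F' →+* IntermediateField.lift F'), ⟨?_, ?_, ?_⟩, ?_⟩
    · obtain ⟨π, hπ⟩ := t1.unif
      refine ⟨e.symm π, ?_⟩
      have h3 : (v''.comap (e : F' →+* IntermediateField.lift F')) (e.symm π)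
        = v'' (e (e.symm π)) := rfl
      rw [h3, AlgEquiv.apply_symm_apply]
      exact hπ
    · intro c hc
      have h3 : (v''.comap (e : F' →+* IntermediateField.lift F'))
        (((algebraMap K F').comp κ) c) = v'' (e (algebraMap K F' (κ c))) := rfl
      rw [h3, AlgEquiv.commutes]
      exact t1.alg c hc
    · intro x hx
      obtain ⟨c, hc⟩ := t1.const (e x) hx
      refine ⟨c, ?_⟩
      have h3 : (v''.comap (e : F' →+* IntermediateField.lift F'))
        (x - ((algebraMap K F').comp κ) c) = v'' (e (x - algebraMap K F' (κ c))) := rfl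
      rw [h3, map_sub, AlgEquiv.commutes]
      exact hc
    · intro x
      apply grf_cancel _ hn
      have h3 : (v''.comap (e : F' →+* IntermediateField.lift F')) x = v'' (e x) := rfl
      rw [← h2, h3, smul_smul]
      have h4 := t2 (e x)
      have h5 : ((e x : IntermediateField.lift F') : L) = ((x : F) : L) := rfl
      rw [h5] at h4
      rw [h4]
      have h6 : Module.finrank (IntermediateField.lift F') L =
          Module.finrank F L * Module.finrank F' F := by
        have e1 := Module.finrank_mul_finrank K (IntermediateField.lift F') L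
        have e2 := Module.finrank_mul_finrank K F L
        have e3 := Module.finrank_mul_finrank K F' F
        have e4 : Module.finrank K F' = Module.finrank K (IntermediateField.lift F') :=
          e.toLinearEquiv.finrank_eq
        have e5 : 0 < Module.finrank K F' := Module.finrank_pos
        rw [← e2, ← e3, ← e4, mul_assoc] at e1
        have := Nat.eq_of_mul_eq_mul_left e5 e1
        rw [this, mul_comm]
      rw [h6]

end

section

open scoped Classical

variable {k K L : Type u} [Field k] [Field K] [Field L] [Algebra K L] [FiniteDimensional K L]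
  [IsGalois K L]

theorem grf_P3 (h3 : ST_P3.{u}) (p : ℕ) [Fact p.Prime] [CharP k p] (κ : k →+* K)
    (v : AddValuation L (WithTop ℤ)) (hR : Ram κ v) (hp : IsPGroup p (L ≃ₐ[K] L))
    (J : Subgroup (L ≃ₐ[K] L)) [J.Normal]
    (vF : AddValuation (IntermediateField.fixedField J) (WithTop ℤ))
    (h1 : TV ((algebraMap K (IntermediateField.fixedField J)).comp κ) vF)
    (h2 : ∀ x : IntermediateField.fixedField J,
      v (x : L) = Module.finrank (IntermediateField.fixedField J) L • vF x)
    (g : L ≃ₐ[K] L) (hg : g ∉ J) :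
    Nat.card J * s vF (g.restrictNormal (IntermediateField.fixedField J)) =
      cs (fun σ : L ≃ₐ[K] L => s v σ) J g := by
  have hg' : g ∉ (IntermediateField.fixedField J).fixingSubgroup := by
    rw [IntermediateField.fixingSubgroup_fixedField]
    exact hg
  have h := h3 p k K L κ v hR hp (IntermediateField.fixedField J) vF h1 h2 g hg'
  rw [IntermediateField.finrank_fixedField_eq_card,
    IntermediateField.fixingSubgroup_fixedField] at h
  exact h

theorem grf_int (h3 : ST_P3.{u}) (p : ℕ) [Fact p.Prime] [CharP k p] (κ : k →+* K)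
    (v : AddValuation L (WithTop ℤ)) (hR : Ram κ v) (hp : IsPGroup p (L ≃ₐ[K] L))
    (J : Subgroup (L ≃ₐ[K] L)) [J.Normal] (g : L ≃ₐ[K] L) (hg : g ∉ J) :
    Nat.card J ∣ cs (fun σ : L ≃ₐ[K] L => s v σ) J g := by
  obtain ⟨vF, t1, t2⟩ := hR.sub (IntermediateField.fixedField J)
  rw [← grf_P3 h3 p κ v hR hp J vF t1 t2 g hg]
  exact dvd_mul_right _ _

/-- the sum over a fibre of a homomorphism with kernel `J` -/
theorem grf_fib {G Q : Type u} [Group G] [Fintype G] [Group Q] (r : G →* Q) (J : Subgroup G)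
    (hJ : r.ker = J) (f : G → ℕ) (g₀ : G) :
    ∑ g ∈ Finset.univ.filter (fun g => r g = r g₀), f g = cs f J g₀ := by
  unfold cs
  symm
  apply Finset.sum_bij (fun j _ => g₀ * j)
  · intro j hj
    rw [Finset.mem_filter] at hj
    rw [Finset.mem_filter]
    refine ⟨Finset.mem_univ _, ?_⟩
    rw [map_mul]
    have : r j = 1 := by
      rw [← MonoidHom.mem_ker, hJ]
      exact hj.2
    rw [this, mul_one]
  · intro a _ b _ hab
    exact mul_left_cancel hab
  · intro g hg
    rw [Finset.mem_filter] at hg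
    refine ⟨g₀⁻¹ * g, ?_, by group⟩
    rw [Finset.mem_filter]
    refine ⟨Finset.mem_univ _, ?_⟩
    rw [← hJ, MonoidHom.mem_ker, map_mul, map_inv, hg.2, inv_mul_cancel]
  · intro j _
    rfl

theorem grf_cycN (h3 : ST_P3.{u}) (h4 : ST_CYC.{u}) (p : ℕ) [Fact p.Prime] [CharP k p]
    (κ : k →+* K) (v : AddValuation L (WithTop ℤ)) (hR : Ram κ v)
    (hp : IsPGroup p (L ≃ₐ[K] L)) (J : Subgroup (L ≃ₐ[K] L)) [J.Normal] (hJ : J ≠ ⊤)
    (hc : IsCyclic ((L ≃ₐ[K] L) ⧸ J)) :
    Nat.card (L ≃ₐ[K] L) ∣
      (∑ g ∈ Finset.univ.filter (fun g : L ≃ₐ[K] L => g ∉ J), s v g) +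
      (Finset.univ.filter (fun g : L ≃ₐ[K] L => g ∉ J)).sup
        (fun g => cs (fun σ : L ≃ₐ[K] L => s v σ) J g) := by
  set F := IntermediateField.fixedField J with hF
  obtain ⟨vF, t1, t2⟩ := hR.sub F
  have hRF : Ram κ vF := grf_quot κ v hR F vF t1 t2
  set r : (L ≃ₐ[K] L) →* (F ≃ₐ[K] F) := AlgEquiv.restrictNormalHom F with hr
  have hrs : Function.Surjective r := AlgEquiv.restrictNormalHom_surjective L
  have hker : r.ker = J := by
    rw [hr, IntermediateField.restrictNormalHom_ker, hF,
      IntermediateField.fixingSubgroup_fixedField]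
  have hpF : IsPGroup p (F ≃ₐ[K] F) := hp.of_surjective r hrs
  have hcF : IsCyclic (F ≃ₐ[K] F) :=
    isCyclic_of_surjective (IsGalois.normalAutEquivQuotient J)
      (IsGalois.normalAutEquivQuotient J).surjective
  obtain ⟨g₁, hg₁⟩ : ∃ g, g ∉ J := by
    by_contra hcon
    push Not at hcon
    exact hJ ((Subgroup.eq_top_iff' J).2 hcon)
  have hne : ∀ g, r g ≠ 1 ↔ g ∉ J := by
    intro g
    rw [← hker, MonoidHom.mem_ker]
  have hnt : Nontrivial (F ≃ₐ[K] F) := ⟨⟨r g₁, 1, (hne g₁).2 hg₁⟩⟩
  have hC := h4 p k K F κ vF hRF hpF hcF hnt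
  have hP : ∀ g, g ∉ J → Nat.card J * s vF (r g) = cs (fun σ : L ≃ₐ[K] L => s v σ) J g :=
    fun g hg => grf_P3 h3 p κ v hR hp J vF t1 t2 g hg
  -- the sum
  have hS : (∑ g ∈ Finset.univ.filter (fun g : L ≃ₐ[K] L => g ∉ J), s v g) =
      Nat.card J * S1 (fun σ : F ≃ₐ[K] F => s vF σ) := by
    unfold S1
    rw [Finset.mul_sum, ← Finset.sum_fiberwise_of_maps_to (g := r)
      (t := Finset.univ.filter (fun σ : F ≃ₐ[K] F => σ ≠ 1))]
    · apply Finset.sum_congr rfl
      intro τ hτ
      rw [Finset.mem_filter] at hτ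
      obtain ⟨g, rfl⟩ := hrs τ
      rw [hP g ((hne g).1 hτ.2), ← grf_fib r J hker]
      apply Finset.sum_congr _ (fun _ _ => rfl)
      ext x
      simp only [Finset.mem_filter, Finset.mem_univ, true_and]
      constructor
      · rintro ⟨-, h⟩
        exact h
      · intro h
        exact ⟨(hne x).1 (h ▸ hτ.2), h⟩
    · intro g hg
      rw [Finset.mem_filter] at hg ⊢
      exact ⟨Finset.mem_univ _, (hne g).2 hg.2⟩
  have hX : (Finset.univ.filter (fun g : L ≃ₐ[K] L => g ∉ J)).sup
      (fun g => cs (fun σ : L ≃ₐ[K] L => s v σ) J g) =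
      Nat.card J * x0 (fun σ : F ≃ₐ[K] F => s vF σ) := by
    unfold x0
    apply le_antisymm
    · apply Finset.sup_le
      intro g hg
      rw [Finset.mem_filter] at hg
      rw [← hP g hg.2]
      apply Nat.mul_le_mul_left
      exact Finset.le_sup (f := fun σ : F ≃ₐ[K] F => s vF σ)
        (Finset.mem_filter.2 ⟨Finset.mem_univ _, (hne g).2 hg.2⟩)
    · obtain ⟨τ, hτ, hτ2⟩ := Finset.exists_mem_eq_sup
        (Finset.univ.filter (fun σ : F ≃ₐ[K] F => σ ≠ 1))
        ⟨r g₁, Finset.mem_filter.2 ⟨Finset.mem_univ _, (hne g₁).2 hg₁⟩⟩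
        (fun σ : F ≃ₐ[K] F => s vF σ)
      rw [hτ2]
      rw [Finset.mem_filter] at hτ
      obtain ⟨g, rfl⟩ := hrs τ
      have hg := (hne g).1 hτ.2
      rw [hP g hg]
      exact Finset.le_sup (f := fun g => cs (fun σ : L ≃ₐ[K] L => s v σ) J g)
        (Finset.mem_filter.2 ⟨Finset.mem_univ _, hg⟩)
  have hcard : Nat.card (L ≃ₐ[K] L) = Nat.card J * Fintype.card (F ≃ₐ[K] F) := by
    rw [IsGalois.card_aut_eq_finrank, ← Nat.card_eq_fintype_card, IsGalois.card_aut_eq_finrank,
      ← IntermediateField.finrank_fixedField_eq_card J, ← Module.finrank_mul_finrank K F L,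
      mul_comm]
  rw [hS, hX, ← mul_add, hcard]
  exact Nat.mul_dvd_mul_left _ hC

end

section

open scoped Classical

/-- transfer of the sums along an isomorphism -/
theorem grf_cs {G G' : Type u} [Group G] [Fintype G] [Group G'] [Fintype G'] (H : Subgroup G)
    (e : H ≃* G') (f : G → ℕ) (f' : G' → ℕ) (hf : ∀ h : H, f' (e h) = f h) (J : Subgroup G)
    (hJH : J ≤ H) (h : H) :
    cs f' ((J.subgroupOf H).map e.toMonoidHom) (e h) = cs f J h := by
  unfold cs
  symm
  apply Finset.sum_bij (fun (j : G) (hj : j ∈ Finset.univ.filter (fun j => j ∈ J)) =>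
    e ⟨j, hJH (Finset.mem_filter.1 hj).2⟩)
  · intro j hj
    have hj' := (Finset.mem_filter.1 hj).2
    exact Finset.mem_filter.2 ⟨Finset.mem_univ _, ⟨⟨j, hJH hj'⟩, hj', rfl⟩⟩
  · intro a ha b hb hab
    have := e.injective hab
    exact congrArg Subtype.val this
  · intro b hb
    obtain ⟨x, hx, rfl⟩ := (Finset.mem_filter.1 hb).2
    exact ⟨x, Finset.mem_filter.2 ⟨Finset.mem_univ _, hx⟩, rfl⟩
  · intro j hj
    rw [← map_mul, hf]
    rfl

end

open scoped Classical in
theorem st_GRF (h1 : ST_RFV.{u}) (h2 : ST_BCH.{u}) (h3 : ST_P3.{u}) (h4 : ST_CYC.{u}) :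
    ST_GRF.{u} := by
  intro p _ k K L _ _ _ _ _ _ _ κ v hR hp
  have key : ∀ H : Subgroup (L ≃ₐ[K] L), ∃ (E : IntermediateField K L)
      (e : H ≃* (L ≃ₐ[E] L)), ∀ (h : H) (x : L), e h x = (h : L ≃ₐ[K] L) x := by
    intro H
    exact ⟨IntermediateField.fixedField H, IntermediateField.subgroupEquivAlgEquiv H,
      fun h x => rfl⟩
  refine ⟨h1 p k K L κ v hR hp, ?_, ?_⟩
  · intro H J hJH hJn h hh hhJ
    obtain ⟨E, e, he⟩ := key H
    have hRE := h2 k K L κ v hR E
    have hpE : IsPGroup p (L ≃ₐ[E] L) := (hp.to_subgroup H).of_equiv e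
    have hf : ∀ h : H, (fun σ : L ≃ₐ[E] L => s v σ) (e h) =
        (fun σ : L ≃ₐ[K] L => s v σ) h := by
      intro h
      have : (e h : L → L) = ((h : L ≃ₐ[K] L) : L → L) := funext (he h)
      simp only [this]
    have hJn' : ((J.subgroupOf H).map e.toMonoidHom).Normal :=
      hJn.map e.toMonoidHom e.surjective
    have hnot : e ⟨h, hh⟩ ∉ (J.subgroupOf H).map e.toMonoidHom := by
      rintro ⟨x, hx, hx2⟩
      have := e.injective hx2
      rw [this] at hx
      exact hhJ hx
    have h5 := grf_int h3 p ((algebraMap K E).comp κ) v hRE hpE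
      ((J.subgroupOf H).map e.toMonoidHom) (e ⟨h, hh⟩) hnot
    rw [grf_cs H e (fun σ : L ≃ₐ[K] L => s v σ) (fun σ : L ≃ₐ[E] L => s v σ) hf J hJH
      ⟨h, hh⟩] at h5
    have h6 : Nat.card ((J.subgroupOf H).map e.toMonoidHom) = Nat.card J := by
      rw [Subgroup.card_map_of_injective e.injective]
      exact Nat.card_congr (Subgroup.subgroupOfEquivOfLe hJH).toEquiv
    rw [h6] at h5
    exact h5
  · intro H J hJH hJn hJ hcyc
    obtain ⟨E, e, he⟩ := key H
    have hRE := h2 k K L κ v hR E
    have hpE : IsPGroup p (L ≃ₐ[E] L) := (hp.to_subgroup H).of_equiv e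
    have hf : ∀ h : H, (fun σ : L ≃ₐ[E] L => s v σ) (e h) =
        (fun σ : L ≃ₐ[K] L => s v σ) h := by
      intro h
      have : (e h : L → L) = ((h : L ≃ₐ[K] L) : L → L) := funext (he h)
      simp only [this]
    have hJn' : ((J.subgroupOf H).map e.toMonoidHom).Normal :=
      hJn.map e.toMonoidHom e.surjective
    have hmem : ∀ h : H, e h ∈ (J.subgroupOf H).map e.toMonoidHom ↔ (h : L ≃ₐ[K] L) ∈ J := by
      intro h
      constructor
      · rintro ⟨x, hx, hx2⟩
        have := e.injective hx2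
        rw [this] at hx
        exact hx
      · intro hx
        exact ⟨h, hx, rfl⟩
    have htop : (J.subgroupOf H).map e.toMonoidHom ≠ ⊤ := by
      intro htop
      apply hJ
      apply le_antisymm hJH
      intro x hx
      rw [← hmem ⟨x, hx⟩, htop]
      exact Subgroup.mem_top _
    have hc' : IsCyclic ((L ≃ₐ[E] L) ⧸ (J.subgroupOf H).map e.toMonoidHom) :=
      isCyclic_of_surjective (QuotientGroup.congr (J.subgroupOf H)
        ((J.subgroupOf H).map e.toMonoidHom) e rfl)
        (QuotientGroup.congr (J.subgroupOf H)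
          ((J.subgroupOf H).map e.toMonoidHom) e rfl).surjective
    have h5 := grf_cycN h3 h4 p ((algebraMap K E).comp κ) v hRE hpE
      ((J.subgroupOf H).map e.toMonoidHom) htop hc'
    have h6 : Nat.card (L ≃ₐ[E] L) = Nat.card H := (Nat.card_congr e.toEquiv).symm
    rw [h6] at h5
    have hcs : ∀ h : H, cs (fun σ : L ≃ₐ[E] L => s v σ) ((J.subgroupOf H).map e.toMonoidHom)
        (e h) = cs (fun σ : L ≃ₐ[K] L => s v σ) J h :=
      grf_cs H e (fun σ : L ≃ₐ[K] L => s v σ) (fun σ : L ≃ₐ[E] L => s v σ) hf J hJH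
    have hS : (∑ g ∈ Finset.univ.filter (fun g : L ≃ₐ[E] L =>
        g ∉ (J.subgroupOf H).map e.toMonoidHom), s v g) =
        ∑ h ∈ Finset.univ.filter (fun h : L ≃ₐ[K] L => h ∈ H ∧ h ∉ J), s v h := by
      symm
      apply Finset.sum_bij (fun (g : L ≃ₐ[K] L)
        (hg : g ∈ Finset.univ.filter (fun h : L ≃ₐ[K] L => h ∈ H ∧ h ∉ J)) =>
        e ⟨g, (Finset.mem_filter.1 hg).2.1⟩)
      · intro g hg
        refine Finset.mem_filter.2 ⟨Finset.mem_univ _, ?_⟩
        rw [hmem]
        exact (Finset.mem_filter.1 hg).2.2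
      · intro a ha b hb hab
        exact congrArg Subtype.val (e.injective hab)
      · intro b hb
        refine ⟨(e.symm b : H), Finset.mem_filter.2 ⟨Finset.mem_univ _, (e.symm b).2, ?_⟩, ?_⟩
        · rw [← hmem, MulEquiv.apply_symm_apply]
          exact (Finset.mem_filter.1 hb).2
        · exact e.apply_symm_apply b
      · intro g hg
        exact (hf ⟨g, (Finset.mem_filter.1 hg).2.1⟩).symm
    have hX : (Finset.univ.filter (fun g : L ≃ₐ[E] L =>
        g ∉ (J.subgroupOf H).map e.toMonoidHom)).sup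
        (fun g => cs (fun σ : L ≃ₐ[E] L => s v σ) ((J.subgroupOf H).map e.toMonoidHom) g) =
        (Finset.univ.filter (fun h : L ≃ₐ[K] L => h ∈ H ∧ h ∉ J)).sup
          (fun h => cs (fun σ : L ≃ₐ[K] L => s v σ) J h) := by
      apply le_antisymm
      · apply Finset.sup_le
        intro b hb
        have h7 := hcs (e.symm b)
        rw [MulEquiv.apply_symm_apply] at h7
        rw [h7]
        refine Finset.le_sup (f := fun h => cs (fun σ : L ≃ₐ[K] L => s v σ) J h)
          (Finset.mem_filter.2 ⟨Finset.mem_univ _, (e.symm b).2, ?_⟩)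
        rw [← hmem, MulEquiv.apply_symm_apply]
        exact (Finset.mem_filter.1 hb).2
      · apply Finset.sup_le
        intro g hg
        have hg' := (Finset.mem_filter.1 hg).2
        have h7 := hcs ⟨g, hg'.1⟩
        have h8 : cs (fun σ : L ≃ₐ[K] L => s v σ) J g =
          cs (fun σ : L ≃ₐ[E] L => s v σ) ((J.subgroupOf H).map e.toMonoidHom)
            (e ⟨g, hg'.1⟩) := h7.symm
        rw [h8]
        refine Finset.le_sup (f := fun g => cs (fun σ : L ≃ₐ[E] L => s v σ)
          ((J.subgroupOf H).map e.toMonoidHom) g)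
          (Finset.mem_filter.2 ⟨Finset.mem_univ _, ?_⟩)
        rw [hmem]
        exact hg'.2
    rw [hS, hX] at h5
    exact h5

end Pool.Agent.Helper21.DN
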