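import Pool.Agent.Helper21.DN.Stmts

/-! # Module EXS: extraspecial groups -/

set_option autoImplicit false

namespace Pool.Agent.Helper21.DN

open scoped commutatorElement

section

variable {P : Type} [Group P]

theorem exs_pow (x y c : P) (hc : ∀ z : P, c * z = z * c) (h : y * x = x * y * c) (n : ℕ) :
    y ^ n * x = x * y ^ n * c ^ n := by
  have hcp : ∀ (m : ℕ) (z : P), c ^ m * z = z * c ^ m := fun m z =>
    (Commute.pow_left (show Commute c z from hc z) m)
  induction n with
  | zero => simp
  | succ n ih =>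
    calc y ^ (n + 1) * x = y ^ n * (y * x) := by rw [pow_succ, mul_assoc]
      _ = (y ^ n * x) * (y * c) := by rw [h]; group
      _ = x * y ^ n * (c ^ n * y) * c := by rw [ih]; group
      _ = x * y ^ (n + 1) * c ^ (n + 1) := by
          rw [hcp, pow_succ, pow_succ]
          group

theorem exs_mul_pow (x y c : P) (hc : ∀ z : P, c * z = z * c) (h : y * x = x * y * c) (n : ℕ) :
    (x * y) ^ n = x ^ n * y ^ n * c ^ (n.choose 2) := by
  have hcp : ∀ (m : ℕ) (z : P), c ^ m * z = z * c ^ m := fun m z =>
    (Commute.pow_left (show Commute c z from hc z) m)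
  induction n with
  | zero => simp
  | succ n ih =>
    have h2 : (n + 1).choose 2 = n + n.choose 2 := by
      rw [Nat.choose_succ_succ' n 1, Nat.choose_one_right]
    calc (x * y) ^ (n + 1) = x ^ n * y ^ n * (c ^ (n.choose 2) * (x * y)) := by
          rw [pow_succ, ih]; group
      _ = x ^ n * (y ^ n * x) * y * c ^ (n.choose 2) := by rw [hcp]; group
      _ = x ^ n * x * y ^ n * (c ^ n * y) * c ^ (n.choose 2) := by
          rw [exs_pow x y c hc h]; group
      _ = x ^ (n + 1) * y ^ (n + 1) * c ^ ((n + 1).choose 2) := by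
          rw [hcp, h2, pow_add, pow_succ, pow_succ]
          group

variable [Finite P] {p : ℕ} [Fact p.Prime]

omit [Finite P] [Fact p.Prime] in
theorem exs_center_pow (hZ : Nat.card (Subgroup.center P) = p) (c : P)
    (hc : c ∈ Subgroup.center P) : c ^ p = 1 := by
  have h : (⟨c, hc⟩ : Subgroup.center P) ^ p = 1 := by
    rw [← hZ]
    exact pow_card_eq_one'
  exact congrArg Subtype.val h

/-- the map `x ↦ x ^ p` -/
theorem exs_pi (hp : p ≠ 2) (hZ : Nat.card (Subgroup.center P) = p)
    (hcl : commutator P ≤ Subgroup.center P) (x y : P) : (x * y) ^ p = x ^ p * y ^ p := by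
  have hc : (x * y)⁻¹ * (y * x) ∈ Subgroup.center P := by
    apply hcl
    have h1 : (x * y)⁻¹ * (y * x) = ⁅y⁻¹, x⁻¹⁆ := by
      rw [commutatorElement_def]
      group
    rw [h1]
    exact Subgroup.commutator_mem_commutator (Subgroup.mem_top _) (Subgroup.mem_top _)
  have hc' : ∀ z : P, ((x * y)⁻¹ * (y * x)) * z = z * ((x * y)⁻¹ * (y * x)) := fun z =>
    ((Subgroup.mem_center_iff.1 hc) z).symm
  rw [exs_mul_pow x y _ hc' (by group) p]
  have hpp : p.Prime := Fact.out
  have h3 : 2 < p := by
    have := hpp.two_le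
    omega
  obtain ⟨m, hm⟩ := hpp.dvd_choose_self (two_ne_zero) h3
  rw [hm, pow_mul, exs_center_pow hZ _ hc, one_pow, mul_one]

/-- centralizers of elements have index at most `p` -/
theorem exs_cent (hZ : Nat.card (Subgroup.center P) = p)
    (hcl : commutator P ≤ Subgroup.center P) (x : P) :
    (Subgroup.centralizer {x}).index ≤ p := by
  have hmem : ∀ y : P, ⁅x, y⁆ ∈ Subgroup.center P := fun y =>
    hcl (Subgroup.commutator_mem_commutator (Subgroup.mem_top _) (Subgroup.mem_top _))
  let f : P →* P :=
    { toFun := fun y => ⁅x, y⁆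
      map_one' := by simp
      map_mul' := fun y z => by
        have h1 := (Subgroup.mem_center_iff.1 (hmem z)) y
        calc ⁅x, y * z⁆ = ⁅x, y⁆ * (y * ⁅x, z⁆) * y⁻¹ := by
              simp only [commutatorElement_def]
              group
          _ = ⁅x, y⁆ * ⁅x, z⁆ := by
              rw [h1]
              group }
  have hker : f.ker = Subgroup.centralizer {x} := by
    ext y
    rw [MonoidHom.mem_ker, Subgroup.mem_centralizer_singleton_iff]
    have : f y = ⁅x, y⁆ := rfl
    rw [this, commutatorElement_eq_one_iff_mul_comm]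
    exact eq_comm
  rw [← hker, Subgroup.index_ker, ← hZ]
  apply Subgroup.card_le_of_le
  rintro _ ⟨y, rfl⟩
  exact hmem y

theorem exs_step (hp : p ≠ 2) (g : ℕ) (hP : Nat.card P = p ^ (2 * g + 1))
    (hZ : Nat.card (Subgroup.center P) = p) (hcl : commutator P ≤ Subgroup.center P)
    (hpow : ∀ x : P, x ^ p ∈ Subgroup.center P) (i : ℕ) (hi : i ≤ g) :
    ∃ B : Subgroup P, Subgroup.center P ≤ B ∧ (∀ a ∈ B, a ^ p = 1) ∧
      B ≤ Subgroup.centralizer (B : Set P) ∧ Nat.card B = p ^ (i + 1) ∧
      (Subgroup.centralizer (B : Set P)).index ≤ p ^ i := by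
  have hpp : p.Prime := Fact.out
  let π : P →* P :=
    { toFun := fun x => x ^ p
      map_one' := one_pow _
      map_mul' := exs_pi hp hZ hcl }
  have hπ : π.ker.index ≤ p := by
    rw [Subgroup.index_ker, ← hZ]
    apply Subgroup.card_le_of_le
    rintro _ ⟨y, rfl⟩
    exact hpow y
  induction i with
  | zero =>
    refine ⟨Subgroup.center P, le_rfl, exs_center_pow hZ, ?_, ?_, ?_⟩
    · exact Subgroup.center_le_centralizer _
    · rw [hZ, zero_add, pow_one]
    · have : Subgroup.centralizer ((Subgroup.center P : Subgroup P) : Set P) = ⊤ := by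
        rw [Subgroup.eq_top_iff']
        intro x
        rw [Subgroup.mem_centralizer_iff]
        intro h hh
        exact ((Subgroup.mem_center_iff.1 hh) x).symm
      rw [this, Subgroup.index_top, pow_zero]
  | succ i ih =>
    obtain ⟨B, hZB, hBp, hBc, hBcard, hBi⟩ := ih (by omega)
    have hΩ : (π.ker ⊓ Subgroup.centralizer (B : Set P)).index ≤ p ^ (i + 1) := by
      calc (π.ker ⊓ Subgroup.centralizer (B : Set P)).index
          ≤ π.ker.index * (Subgroup.centralizer (B : Set P)).index := Subgroup.index_inf_le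
        _ ≤ p * p ^ i := Nat.mul_le_mul hπ hBi
        _ = p ^ (i + 1) := by rw [pow_succ, mul_comm]
    obtain ⟨x, hxΩ, hxB⟩ : ∃ x ∈ π.ker ⊓ Subgroup.centralizer (B : Set P), x ∉ B := by
      by_contra hcon
      push Not at hcon
      have h1 : Nat.card (π.ker ⊓ Subgroup.centralizer (B : Set P) : Subgroup P) ≤
        Nat.card B := Subgroup.card_le_of_le hcon
      have h2 := Subgroup.card_mul_index (π.ker ⊓ Subgroup.centralizer (B : Set P))
      rw [hP] at h2
      have h3 : p ^ (2 * g + 1) ≤ p ^ (i + 1) * p ^ (i + 1) := by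
        rw [← h2]
        apply Nat.mul_le_mul _ hΩ
        rw [← hBcard]
        exact h1
      rw [← pow_add] at h3
      have h4 := (Nat.pow_le_pow_iff_right hpp.one_lt).1 h3
      omega
    have hxp : x ^ p = 1 := (Subgroup.mem_inf.1 hxΩ).1
    have hxC : x ∈ Subgroup.centralizer (B : Set P) := (Subgroup.mem_inf.1 hxΩ).2
    have hBn : B.Normal := by
      constructor
      intro b hb y
      have h1 : y * b * y⁻¹ = ⁅y, b⁆ * b := by
        rw [commutatorElement_def]
        group
      rw [h1]
      exact B.mul_mem (hZB (hcl (Subgroup.commutator_mem_commutator (Subgroup.mem_top _)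
        (Subgroup.mem_top _)))) hb
    have hord : Nat.card (Subgroup.zpowers x) = p := by
      rw [Nat.card_zpowers]
      apply orderOf_eq_prime hxp
      intro h
      exact hxB (h ▸ B.one_mem)
    have hrel : B.relIndex (Subgroup.zpowers x ⊔ B) = p := by
      rw [Subgroup.relIndex_sup_right]
      have h1 : B.relIndex (Subgroup.zpowers x) ∣ p := by
        rw [← hord]
        exact Subgroup.relIndex_dvd_card _ _
      rcases (Nat.dvd_prime hpp).1 h1 with h2 | h2
      · exfalso
        rw [Subgroup.relIndex_eq_one] at h2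
        exact hxB (h2 (Subgroup.mem_zpowers x))
      · exact h2
    refine ⟨Subgroup.zpowers x ⊔ B, hZB.trans le_sup_right, ?_, ?_, ?_, ?_⟩
    · have h1 : Subgroup.zpowers x ⊔ B ≤ π.ker :=
        sup_le (Subgroup.zpowers_le.2 hxp) (fun b hb => hBp b hb)
      intro a ha
      exact h1 ha
    · have hzx : Subgroup.zpowers x ≤ Subgroup.centralizer (B : Set P) :=
        Subgroup.zpowers_le.2 hxC
      have h1 : Subgroup.zpowers x ⊔ B ≤ Subgroup.centralizer (B : Set P) := sup_le hzx hBc
      have h2 : B ≤ Subgroup.centralizer ((Subgroup.zpowers x ⊔ B : Subgroup P) : Set P) :=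
        Subgroup.le_centralizer_iff.1 h1
      have h3 : Subgroup.zpowers x ≤ Subgroup.centralizer ((Subgroup.zpowers x : Subgroup P) : Set P) := by
        rintro _ ⟨a, rfl⟩
        rw [Subgroup.mem_centralizer_iff]
        rintro _ ⟨b, rfl⟩
        exact (Commute.zpow_zpow_self x b a)
      have h4 : Subgroup.zpowers x ⊔ B ≤
          Subgroup.centralizer ((Subgroup.zpowers x : Subgroup P) : Set P) :=
        sup_le h3 (Subgroup.le_centralizer_iff.1 hzx)
      exact sup_le (Subgroup.le_centralizer_iff.1 h4) h2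
    · have h1 := Subgroup.relIndex_mul_relIndex ⊥ B (Subgroup.zpowers x ⊔ B) bot_le le_sup_right
      rw [Subgroup.relIndex_bot_left, Subgroup.relIndex_bot_left, hrel, hBcard] at h1
      rw [← h1, ← pow_succ]
    · have h1 : Subgroup.centralizer (B : Set P) ⊓ Subgroup.centralizer {x} ≤
          Subgroup.centralizer ((Subgroup.zpowers x ⊔ B : Subgroup P) : Set P) := by
        intro y hy
        have hy1 := (Subgroup.mem_inf.1 hy).1
        have hy2 := (Subgroup.mem_inf.1 hy).2
        have h2 : Subgroup.zpowers x ⊔ B ≤ Subgroup.centralizer {y} := by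
          apply sup_le
          · rw [Subgroup.zpowers_le, Subgroup.mem_centralizer_singleton_iff]
            rw [Subgroup.mem_centralizer_singleton_iff] at hy2
            exact hy2.symm
          · intro b hb
            rw [Subgroup.mem_centralizer_singleton_iff]
            exact (Subgroup.mem_centralizer_iff.1 hy1) b hb
        rw [Subgroup.mem_centralizer_iff]
        intro h hh
        exact (Subgroup.mem_centralizer_singleton_iff.1 (h2 hh))
      calc (Subgroup.centralizer ((Subgroup.zpowers x ⊔ B : Subgroup P) : Set P)).index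
          ≤ (Subgroup.centralizer (B : Set P) ⊓ Subgroup.centralizer {x}).index :=
            Subgroup.index_antitone h1
        _ ≤ (Subgroup.centralizer (B : Set P)).index * (Subgroup.centralizer {x}).index :=
            Subgroup.index_inf_le
        _ ≤ p ^ i * p := Nat.mul_le_mul hBi (exs_cent hZ hcl x)
        _ = p ^ (i + 1) := (pow_succ _ _).symm

end

theorem st_EXS : ST_EXS := by
  intro p _ hp2 P _ _ g hg hP hZ hcl hpow
  have hpp : p.Prime := Fact.out
  obtain ⟨B, hZB, hBp, hBc, hBcard, -⟩ := exs_step hp2 g hP hZ hcl hpow g le_rfl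
  have hab : ∀ a ∈ B, ∀ b ∈ B, a * b = b * a := fun a ha b hb =>
    ((Subgroup.mem_centralizer_iff.1 (hBc ha)) b hb).symm
  have hidx : B.index = p ^ g := by
    have h1 := Subgroup.card_mul_index B
    rw [hP, hBcard] at h1
    have h2 : p ^ (2 * g + 1) = p ^ (g + 1) * p ^ g := by
      rw [← pow_add]
      congr 1
      omega
    rw [h2] at h1
    exact Nat.eq_of_mul_eq_mul_left (pow_pos hpp.pos _) h1
  have hrel : (Subgroup.center P).relIndex B = p ^ g := by
    have h1 := Subgroup.relIndex_mul_relIndex ⊥ (Subgroup.center P) B bot_le hZB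
    rw [Subgroup.relIndex_bot_left, Subgroup.relIndex_bot_left, hZ, hBcard, pow_succ',
      ] at h1
    exact Nat.eq_of_mul_eq_mul_left hpp.pos h1
  have hBB : ⁅B, B⁆ = ⊥ := by
    rw [Subgroup.commutator_eq_bot_iff_le_centralizer]
    exact hBc
  refine ⟨?_, B, hab, hBp, ?_, hrel⟩
  · -- the bound for `MP`
    have hmin : ∀ z : P, z ≠ 1 → minIndex z ∣ p ^ g := by
      intro z hz
      have hne : {m | ∃ H : Subgroup P, z ∉ ⁅H, H⁆ ∧ m = H.index}.Nonempty :=
        ⟨B.index, B, by rw [hBB]; exact hz, rfl⟩
      obtain ⟨H, hH, hm⟩ := Nat.sInf_mem hne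
      have hle : minIndex z ≤ p ^ g := by
        rw [← hidx]
        exact Nat.sInf_le ⟨B, by rw [hBB]; exact hz, rfl⟩
      have h1 : minIndex z ∣ p ^ (2 * g + 1) := by
        unfold minIndex
        rw [hm, ← hP]
        exact Subgroup.index_dvd_card H
      obtain ⟨j, -, hj⟩ := (Nat.dvd_prime_pow hpp).1 h1
      rw [hj] at hle ⊢
      exact pow_dvd_pow p ((Nat.pow_le_pow_iff_right hpp.one_lt).1 hle)
    obtain ⟨z₀, hz₀, hz₀o⟩ : ∃ z : P, z ∈ Subgroup.center P ∧ orderOf z = p := by
      have hdvd : p ∣ Nat.card (Subgroup.center P) := by rw [hZ]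
      obtain ⟨z, hz⟩ := exists_prime_orderOf_dvd_card' p hdvd
      refine ⟨z, z.2, ?_⟩
      rw [← hz]
      exact Subgroup.orderOf_coe z
    have hne : {m | ∃ z : P, z ∈ Subgroup.center P ∧ orderOf z = p ∧ m = minIndex z}.Nonempty :=
      ⟨minIndex z₀, z₀, hz₀, hz₀o, rfl⟩
    have hall : ∀ m ∈ {m | ∃ z : P, z ∈ Subgroup.center P ∧ orderOf z = p ∧ m = minIndex z},
        m ∣ p ^ g := by
      rintro m ⟨z, -, hz, rfl⟩
      apply hmin
      intro h1
      rw [h1, orderOf_one] at hz
      exact hpp.one_lt.ne hz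
    have hbdd : BddAbove {m | ∃ z : P, z ∈ Subgroup.center P ∧ orderOf z = p ∧
        m = minIndex z} := ⟨p ^ g, fun m hm => Nat.le_of_dvd (pow_pos hpp.pos _) (hall m hm)⟩
    exact hall _ (Nat.sSup_mem hne hbdd)
  · -- the commutator subgroup
    have hle : ⁅B, (⊤ : Subgroup P)⁆ ≤ Subgroup.center P :=
      (Subgroup.commutator_mono le_top le_rfl).trans hcl
    have h1 : Nat.card (⁅B, (⊤ : Subgroup P)⁆ : Subgroup P) ∣ p := by
      rw [← hZ]
      exact Subgroup.card_dvd_of_le hle
    rcases (Nat.dvd_prime hpp).1 h1 with h2 | h2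
    · exfalso
      have h3 : ⁅B, (⊤ : Subgroup P)⁆ = ⊥ := Subgroup.card_eq_one.1 h2
      rw [Subgroup.commutator_eq_bot_iff_le_centralizer] at h3
      have h4 : B ≤ Subgroup.center P := by
        intro b hb
        rw [Subgroup.mem_center_iff]
        intro y
        exact (Subgroup.mem_centralizer_iff.1 (h3 hb)) y (Subgroup.mem_top _)
      have h5 := Subgroup.card_le_of_le h4
      rw [hBcard, hZ] at h5
      have h6 : p ^ 1 < p ^ (g + 1) := Nat.pow_lt_pow_right hpp.one_lt (by omega)
      rw [pow_one] at h6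
      omega
    · exact h2

end Pool.Agent.Helper21.DN
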